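import Pool.Agent.Work.MP_9a767b_pr.H.Main

/-!
# First passage percolation in high dimensions: unit increments

`lattice d` is the lattice of dimension `d + 2`, `FPP d P ν τ a` says that `τ` are independent
nonnegative edge weights with the law `ν` on it and `a n` is the passage time from `0` to `n e_1`.
-/

open MeasureTheory ProbabilityTheory Filter Topology

namespace Pool.Agent.Results.MP_9a767b_pr.HighDimensions

open Pool.Agent.Work.MP_9a767b_pr.H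

theorem result (ν : Measure ℝ) [IsProbabilityMeasure ν] (α : ℝ) (hα : 0 < α)
    (h : ν (Set.Iio α) = 0) (hess : ∀ ε : ℝ, 0 < ε → ν (Set.Iio (α + ε)) ≠ 0)
    (hi : Integrable (fun x : ℝ => x) ν) (η : ℝ) (hη : 0 < η) :
    ∃ d₀ : ℕ, ∀ d : ℕ, d₀ ≤ d → ∀ (Ω : Type) [MeasurableSpace Ω] (P : Measure Ω)
      [IsProbabilityMeasure P] (τ : Sym2 (Fin (d + 2) → ℤ) → Ω → ℝ) (a : ℕ → Ω → ℝ),
      FPP d P ν τ a →
      ∃ μ : ℝ, Tendsto (fun n : ℕ => (∫ ω, a n ω ∂P) / n) atTop (𝓝 μ) ∧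
        α ≤ μ ∧ μ ≤ α + η ∧
        (∃ c : ℝ, 0 < c ∧ ∀ᶠ n : ℕ in atTop,
          (∫ ω, a n ω ∂P) + c ≤ ∫ ω, a (n + 1) ω ∂P) ∧
        (∀ᶠ n : ℕ in atTop, μ - η ≤ (∫ ω, a (n + 1) ω ∂P) - ∫ ω, a n ω ∂P) ∧
        ∃ N : ℕ, ∀ K n : ℕ, N ≤ K → N ≤ n →
          (((Finset.range K).filter (fun j =>
            μ + η < (∫ ω, a (n + j + 1) ω ∂P) - ∫ ω, a (n + j) ω ∂P)).card : ℝ) ≤ η * K := by
  obtain ⟨d₀, hd⟩ := main_high hα h hess hi hη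
  refine ⟨d₀, fun d hdd Ω _ P _ τ a H => ?_⟩
  obtain ⟨μ, h1, h2, h3, h4, h5, h6⟩ := hd d hdd Ω P τ a H
  exact ⟨μ, h1, h2, h3, h5, h4, h6⟩

end Pool.Agent.Results.MP_9a767b_pr.HighDimensions
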