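import Pool.Agent.Work.MP_9a767b_pr.H.Main

/-!
# First passage percolation in all dimensions: a lower bound for the increments

`lattice d` is the lattice of dimension `d + 2`, `FPP d P ν τ a` says that `τ` are independent
nonnegative edge weights with the law `ν` on it and `a n` is the passage time from `0` to `n e_1`.
-/

open MeasureTheory ProbabilityTheory Filter Topology

namespace Pool.Agent.Results.MP_9a767b_pr.IncrementBound

open Pool.Agent.Work.MP_9a767b_pr.H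

theorem result (ν : Measure ℝ) [IsProbabilityMeasure ν] (α : ℝ) (hα : 0 < α)
    (h : ν (Set.Iio α) = 0) (hi : Integrable (fun x : ℝ => x) ν) (d : ℕ) (Ω : Type)
    [MeasurableSpace Ω] (P : Measure Ω) [IsProbabilityMeasure P]
    (τ : Sym2 (Fin (d + 2) → ℤ) → Ω → ℝ) (a : ℕ → Ω → ℝ) (H : FPP d P ν τ a) :
    (∀ n, Integrable (a n) P) ∧
    ∃ μ : ℝ, Tendsto (fun n : ℕ => (∫ ω, a n ω ∂P) / n) atTop (𝓝 μ) ∧ α ≤ μ ∧
      (∀ lam : ℝ, (lam = 2 * ((∫ x, x ∂ν) - α) / α ∨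
          ∃ β : ℝ, ν (Set.Ioi β) = 0 ∧ lam = (β - α) / α) →
        (∀ n : ℕ, α - lam * ((∫ ω, a (n + 1) ω ∂P) / ((n : ℝ) + 1) - α) ≤
          (∫ ω, a (n + 1) ω ∂P) - ∫ ω, a n ω ∂P) ∧
        (lam * ((∫ x, x ∂ν) - α) < α → StrictMono (fun n => ∫ ω, a n ω ∂P)) ∧
        (lam * (μ - α) < α → ∃ c : ℝ, 0 < c ∧ ∀ᶠ n : ℕ in atTop,
          (∫ ω, a n ω ∂P) + c ≤ ∫ ω, a (n + 1) ω ∂P)) ∧
      (∀ β : ℝ, ν (Set.Ioi β) = 0 → β < 2 * α → StrictMono (fun n => ∫ ω, a n ω ∂P)) ∧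
      ∀ K : ℕ, 1 ≤ K →
        (∀ n : ℕ, K * α - ((K : ℝ) + 1) * ((∫ x, x ∂ν) - α) / α *
            ((∫ ω, a (n + K) ω ∂P) / ((n : ℝ) + 1) - α) ≤
          (∫ ω, a (n + K) ω ∂P) - ∫ ω, a n ω ∂P) ∧
        (((K : ℝ) + 1) * (((∫ x, x ∂ν) - α) * (μ - α)) < K * α ^ 2 →
          ∃ c : ℝ, 0 < c ∧ ∀ᶠ n : ℕ in atTop,
            (∫ ω, a n ω ∂P) + c ≤ ∫ ω, a (n + K) ω ∂P) := by
  obtain ⟨h1, h2, h3, μ, h4, h5, h6⟩ := main_all hα h hi d P H
  refine ⟨h1, μ, h4, h5, ?_, fun β hβ hs => (main_bdd hα h hβ d P H).2.1 (Or.inl hs),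
    fun K hK => ⟨fun n => h2 K n hK, h6 K hK⟩⟩
  rintro lam (rfl | ⟨β, hβ, rfl⟩)
  · refine ⟨fun n => ?_, fun hs => h3 ?_, fun hs => h6 1 le_rfl ?_⟩
    · have := h2 1 n le_rfl
      push_cast at this
      calc _ = _ := by ring
        _ ≤ _ := this
    · rw [div_mul_eq_mul_div, div_lt_iff₀ hα] at hs
      nlinarith
    · rw [div_mul_eq_mul_div, div_lt_iff₀ hα] at hs
      push_cast
      nlinarith
  · obtain ⟨k1, k2, k3⟩ := main_bdd hα h hβ d P H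
    refine ⟨k1, fun hs => k2 (Or.inr ?_), fun hs => k3 μ h4 ?_⟩
    · rw [div_mul_eq_mul_div, div_lt_iff₀ hα] at hs
      nlinarith
    · rw [div_mul_eq_mul_div, div_lt_iff₀ hα] at hs
      nlinarith

end Pool.Agent.Results.MP_9a767b_pr.IncrementBound
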