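import Pool.Agent.Work.MP_9a767b_pr.U.Main
import Pool.Agent.Work.MP_9a767b_pr.U.NearC
import Pool.Agent.Work.MP_9a767b_pr.L.Plane

/-!
# First passage percolation on the square lattice: unit increments

Let `ν` be the law of the weights, `a n` the passage time from `(0,0)` to `(n,0)` and `μ` the time
constant. `E [a (n + 1) - a n]` converges to `μ` in each of the following cases:

(1) `ν {0} ≥ 1/2` (by a theorem of Kesten these are the laws with `μ = 0`);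

(2) `E T((0,0),(k,k)) < 2 k μ` for some `k` (i.e. `μ > 0` and the limit shape is not the diamond);

(3) `ν (-∞, r] > 15/16` for some `r < μ`;

(4) `ν` has an atom of mass larger than `15/16` at the infimum of its support;

(5) `ν` is the law of `1 + δ U`, where `U` has a given law on `[0,1]` that is not a Dirac measure, and
`δ > 0` is small.
-/

open MeasureTheory ProbabilityTheory Filter Topology

namespace Pool.Agent.Results.MP_9a767b_pr.UnitIncrement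

open Pool.Agent.Work.MP_9a767b_pr
open Pool.Agent.Work.MP_9a767b_pr.U

private theorem near {Ω : Type} [MeasurableSpace Ω] (P : Measure Ω) [IsProbabilityMeasure P]
    (ν : Measure ℝ) [IsProbabilityMeasure ν] (hI : Integrable (fun ω => T ω 0 (1, 0)) (Q ν))
    (hd : Nm (g ν) 1 1 < 2 * Nm (g ν) 1 0)
    (τ : Sym2 (ℤ × ℤ) → Ω → ℝ) (a : ℕ → Ω → ℝ)
    (hτ : ∀ e ∈ lattice.edgeSet, Measurable (τ e))
    (hind : iIndepFun (fun (e : lattice.edgeSet) => τ e.1) P)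
    (hlaw : ∀ e ∈ lattice.edgeSet, Measure.map (τ e) P = ν)
    (hpos : ∀ e ω, 0 ≤ τ e ω)
    (ha : ∀ n ω, a n ω = ⨅ w : lattice.Walk ((0, 0) : ℤ × ℤ) ((n : ℤ), 0),
      (w.edges.map (fun e => τ e ω)).sum) :
    Tendsto (fun n : ℕ => ∫ ω, (a (n + 1) ω - a n ω) ∂P) atTop (𝓝 (Nm (g ν) 1 0)) := by
  have hpt : ∀ n ω, a n ω = pt (fun e => τ e ω) 0 ((n : ℤ), 0) := fun n ω => ha n ω
  have hT := fun (m : ℕ) (x y : Fin m → V) (f : (Fin m → ℝ) → ℝ) (hf : Measurable f) =>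
    transfer P ν τ (fun e he => (hτ e he).aemeasurable) hind hlaw hpos x y f hf
  have hgi : ∀ n : ℕ, Integrable (a n) P ∧ ∫ ω, a n ω ∂P = g ν (n, 0) := by
    intro n
    have h := hT 1 (fun _ => 0) (fun _ => ((n : ℤ), 0)) (fun v => v 0) (measurable_pi_apply 0)
    refine ⟨?_, ?_⟩
    · refine (h.2.2 (integrable_T hI _ _)).congr (Eventually.of_forall fun ω => ?_)
      exact (hpt n ω).symm
    · rw [g, ← h.1]
      exact integral_congr_ae (Eventually.of_forall fun ω => hpt n ω)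
  refine (unit hI hd).congr fun n => ?_
  rw [integral_sub (hgi (n + 1)).1 (hgi n).1, (hgi (n + 1)).2, (hgi n).2]
  push_cast
  rfl

theorem result :
    (∀ {Ω : Type} [MeasurableSpace Ω] (P : Measure Ω) [IsProbabilityMeasure P]
      (ν : Measure ℝ) (τ : Sym2 (ℤ × ℤ) → Ω → ℝ) (a : ℕ → Ω → ℝ),
      (∀ e ∈ lattice.edgeSet, Measurable (τ e)) →
      iIndepFun (fun (e : lattice.edgeSet) => τ e.1) P →
      (∀ e ∈ lattice.edgeSet, Measure.map (τ e) P = ν) →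
      (∀ e ω, 0 ≤ τ e ω) →
      (∀ n ω, a n ω = ⨅ w : lattice.Walk ((0, 0) : ℤ × ℤ) ((n : ℤ), 0),
        (w.edges.map (fun e => τ e ω)).sum) →
      Integrable (a 1) P → ∀ μ : ℝ, Tendsto (fun n : ℕ => (∫ ω, a n ω ∂P) / n) atTop (𝓝 μ) →
      (1 / 2 ≤ ν {0} ∨
        (∃ k : ℕ, ∫ ω, (⨅ w : lattice.Walk ((0, 0) : ℤ × ℤ) ((k : ℤ), (k : ℤ)),
          (w.edges.map (fun e => τ e ω)).sum) ∂P < 2 * k * μ) ∨
        (∃ r < μ, 15 / 16 < ν (Set.Iic r)) ∨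
        ∃ r, ν (Set.Iio r) = 0 ∧ 15 / 16 < ν {r}) →
      Tendsto (fun n : ℕ => ∫ ω, (a (n + 1) ω - a n ω) ∂P) atTop (𝓝 μ)) ∧
    ∀ ρ : Measure ℝ, IsProbabilityMeasure ρ → ρ (Set.Icc 0 1)ᶜ = 0 →
      (∀ x, ρ ≠ Measure.dirac x) → ∃ δ₀ : ℝ, 0 < δ₀ ∧ ∀ δ : ℝ, 0 < δ → δ ≤ δ₀ →
      ∀ {Ω : Type} [MeasurableSpace Ω] (P : Measure Ω) [IsProbabilityMeasure P]
      (τ : Sym2 (ℤ × ℤ) → Ω → ℝ) (a : ℕ → Ω → ℝ),
      (∀ e ∈ lattice.edgeSet, Measurable (τ e)) →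
      iIndepFun (fun (e : lattice.edgeSet) => τ e.1) P →
      (∀ e ∈ lattice.edgeSet, Measure.map (τ e) P = ρ.map (fun x => 1 + δ * x)) →
      (∀ e ω, 0 ≤ τ e ω) →
      (∀ n ω, a n ω = ⨅ w : lattice.Walk ((0, 0) : ℤ × ℤ) ((n : ℤ), 0),
        (w.edges.map (fun e => τ e ω)).sum) →
      ∃ μ : ℝ, Tendsto (fun n : ℕ => ∫ ω, (a (n + 1) ω - a n ω) ∂P) atTop (𝓝 μ) := by
  refine ⟨?_, ?_⟩
  · intro Ω _ P _ ν τ a h1 h2 h3 h4 h5 h6 μ hμ h
    have main : (1 / 2 ≤ ν {0} ∨ (∃ r < μ, 15 / 16 < ν (Set.Iic r)) ∨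
        ∃ r, ν (Set.Iio r) = 0 ∧ 15 / 16 < ν {r}) →
        Tendsto (fun n : ℕ => ∫ ω, (a (n + 1) ω - a n ω) ∂P) atTop (𝓝 μ) := by
      intro h'
      obtain ⟨hp, hneg, hI, hgi⟩ := L.setting P ν τ a h1 h2 h3 h4 h5 h6
      have hμ' : Tendsto (fun n : ℕ => g ν (n, 0) / n) atTop (𝓝 μ) :=
        hμ.congr fun n => by rw [(hgi n).2]
      refine (L.plane hneg hI hμ' h').congr fun n => ?_
      rw [integral_sub (hgi (n + 1)).1 (hgi n).1, (hgi (n + 1)).2, (hgi n).2]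
      push_cast
      rfl
    rcases h with h | ⟨k, hk⟩ | h | h
    · exact main (Or.inl h)
    · exact unit_main P ν τ a h1 h2 h3 h4 h5 h6 μ hμ k hk
    · exact main (Or.inr (Or.inl h))
    · exact main (Or.inr (Or.inr h))
  · intro ρ hρp hρ hnd
    obtain ⟨δ₀, h0, h⟩ := near_const hρ hnd
    refine ⟨δ₀, h0, fun δ hδ hδ0 Ω _ P _ τ a h1 h2 h3 h4 h5 => ?_⟩
    have : IsProbabilityMeasure (ρ.map (fun x => 1 + δ * x)) :=
      Measure.isProbabilityMeasure_map (by fun_prop)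
    exact ⟨_, near P _ (integrable_near hρ hδ) (h δ hδ hδ0) τ a h1 h2 h3 h4 h5⟩

end Pool.Agent.Results.MP_9a767b_pr.UnitIncrement
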