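import Pool.Agent.Work.MP_9a767b_pr.Main

/-!
# First passage percolation on the square lattice: increments over long windows

For every distribution of the edge weights for which the passage time `a 1` from `(0,0)` to `(1,0)`
is integrable, the increments `a (n + K) - a n` divided by `K` converge to the time constant `μ` in
`L¹` as `K → ∞`, uniformly in `n`. In particular, if `μ > 0`, there is `K₀` such that
`E a (n + K) > E a n` for all `K ≥ K₀` and all `n`.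
-/

open MeasureTheory ProbabilityTheory Filter Topology

namespace Pool.Agent.Results.MP_9a767b_pr.WindowLimit

open Pool.Agent.Work.MP_9a767b_pr (lattice)

theorem result {Ω : Type*} [MeasurableSpace Ω] (P : Measure Ω) [IsProbabilityMeasure P]
    (ν : Measure ℝ) (τ : Sym2 (ℤ × ℤ) → Ω → ℝ) (a : ℕ → Ω → ℝ)
    (hτ : ∀ e ∈ lattice.edgeSet, Measurable (τ e))
    (hind : iIndepFun (fun (e : lattice.edgeSet) => τ e.1) P)
    (hlaw : ∀ e ∈ lattice.edgeSet, Measure.map (τ e) P = ν)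
    (hpos : ∀ e ω, 0 ≤ τ e ω)
    (ha : ∀ n ω, a n ω = ⨅ w : lattice.Walk ((0, 0) : ℤ × ℤ) ((n : ℤ), 0),
      (w.edges.map (fun e => τ e ω)).sum)
    (hint : Integrable (a 1) P) :
    ∃ μ : ℝ, Tendsto (fun n : ℕ => (∫ ω, a n ω ∂P) / n) atTop (𝓝 μ) ∧
      (∀ δ > 0, ∃ K₀ : ℕ, ∀ K ≥ K₀, ∀ n : ℕ, ∫ ω, |a (n + K) ω - a n ω - K * μ| ∂P ≤ δ * K) ∧
      (0 < μ → ∃ K₀ : ℕ, ∀ K ≥ K₀, ∀ n : ℕ, ∫ ω, a n ω ∂P < ∫ ω, a (n + K) ω ∂P) :=
  Pool.Agent.Work.MP_9a767b_pr.main P ν τ a hτ hind hlaw hpos ha hint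

end Pool.Agent.Results.MP_9a767b_pr.WindowLimit
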